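import Pool.Agent.Lib.helper5.Vnum

open MvPolynomial

namespace Pool.Agent.Results.MP_a79530_al.Drop

/-- `p` is an associated prime of `J`: a prime of the form `(J : f)`. -/
def IsAss {S : Type} [CommRing S] (J p : Ideal S) : Prop :=
  p.IsPrime ∧ ∃ f, ∀ g, g ∈ p ↔ g * f ∈ J

/-- Local v-number: the least degree of a homogeneous `f` with `(J : f) = p`. -/
noncomputable def vLoc {K : Type} [Field K] {n : ℕ} (J p : Ideal (MvPolynomial (Fin n) K)) : ℕ :=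
  sInf {d | ∃ f : MvPolynomial (Fin n) K, f.IsHomogeneous d ∧ ∀ g, g ∈ p ↔ g * f ∈ J}

theorem result (K : Type) [Field K] : ∃ I p : Ideal (MvPolynomial (Fin 3) K),
    (∃ s : Set (MvPolynomial (Fin 3) K), (∀ g ∈ s, ∃ d, g.IsHomogeneous d) ∧ I = Ideal.span s) ∧
    (∀ k ≥ 1, IsAss (I ^ k) p) ∧ vLoc (I ^ 2) p < vLoc (I ^ 1) p := by
  have h1 := H5V.colon_vars K (H5V.one K).1 (H5V.one K).2
  have h2 := fun k => H5V.colon_vars K (H5V.two K k).1 (H5V.two K k).2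
  refine ⟨H5V.I0 K, idealOfVars _ K, H5V.homog K, fun k hk => ⟨H5V.prime_vars K, ?_⟩, ?_⟩
  · obtain rfl | ⟨k, rfl⟩ : k = 1 ∨ ∃ j, k = j + 2 := by
      rcases Nat.lt_or_ge k 2 with h | h
      · left; omega
      · right; exact ⟨k - 2, by omega⟩
    · exact ⟨_, by rw [pow_one]; exact h1⟩
    · exact ⟨_, h2 k⟩
  · refine lt_of_le_of_lt (Nat.sInf_le ⟨_, H5V.hom3 K, h2 0⟩) ?_
    rw [pow_one]
    rw [Nat.lt_iff_add_one_le, vLoc]
    refine le_csInf ⟨4, _, (isHomogeneous_X K 0).pow 4, h1⟩ ?_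
    rintro d ⟨f, hf, h⟩
    refine H5V.low K hf (fun hI => (H5V.prime_vars K).ne_top ((Ideal.eq_top_iff_one _).2
      ((h 1).2 (by rwa [one_mul])))) fun i => (h _).1 (Ideal.subset_span ⟨i, rfl⟩)

end Pool.Agent.Results.MP_a79530_al.Drop
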